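import Pool.Agent.helper30.TQ6.Reduce

/-!
# Greedy completion of a precoloured seam (L2)

`Ed r` is the word graph (`helper30/TQ6/Reduce.lean`).  A seam is a sequence of blocks
`[s j, t j]` of labelled vertices, one in every row, together with arbitrary further labelled
vertices; if every unlabelled vertex sees few colours compared with its labelled out-neighbours,
then the labels extend to a proper colouring with six colours.
-/

set_option autoImplicit false

namespace Pool.Agent.helper29.TQ6

open Pool.Agent.helper30.TQ6 (Ed)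

/-- the last `u ≥ 1` with `r (u - 1) ≤ v` (used for `v ≥ 4` only) -/
def last (r : ℕ → ℕ) (v : ℕ) : ℕ := Nat.findGreatest (fun u => 1 ≤ u ∧ r (u - 1) ≤ v) v

/-- the word: monotone, `r 0 = 4`, windows at least three -/
structure Word (r : ℕ → ℕ) : Prop where
  mono : Monotone r
  zero : r 0 = 4
  win : ∀ v, 1 ≤ v → v + 3 ≤ r v

/-- blocks of the seam -/
structure Blocks {κ : Type} (r : ℕ → ℕ) (lab : ℕ → Option κ) (s t : ℕ → ℕ) : Prop where
  s0 : 1 ≤ s 0
  s0' : s 0 ≤ 4
  st : ∀ j, s j ≤ t j
  ts : ∀ j, t j < s (j + 1)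
  up : ∀ j, s (j + 1) ≤ r (t j)
  dn : ∀ j, r (s j - 1) ≤ t (j + 1)
  full : ∀ j v, s j ≤ v → v ≤ t j → lab v ≠ none

theorem last_spec {r : ℕ → ℕ} (hr : Word r) {v : ℕ} (hv : 4 ≤ v) :
    1 ≤ last r v ∧ last r v ≤ v ∧ r (last r v - 1) ≤ v ∧ v < r (last r v) := by
  have h1 : (fun u => 1 ≤ u ∧ r (u - 1) ≤ v) (last r v) := by
    apply Nat.findGreatest_spec (P := fun u => 1 ≤ u ∧ r (u - 1) ≤ v) (m := 1) (by omega)
    refine ⟨le_rfl, ?_⟩
    show r 0 ≤ v
    rw [hr.zero]
    exact hv
  have h2 : last r v ≤ v := Nat.findGreatest_le v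
  refine ⟨h1.1, h2, h1.2, ?_⟩
  rcases Nat.lt_or_ge (last r v) v with h3 | h3
  · by_contra h4
    have h5 : ¬ (1 ≤ last r v + 1 ∧ r (last r v + 1 - 1) ≤ v) :=
      Nat.findGreatest_is_greatest (P := fun u => 1 ≤ u ∧ r (u - 1) ≤ v)
        (n := v) (k := last r v + 1) (Nat.lt_succ_self _) (by omega)
    apply h5
    rw [Nat.add_sub_cancel]
    exact ⟨by omega, by omega⟩
  · have h4 : last r v = v := by omega
    rw [h4]
    have := hr.win v (by omega)
    omega

theorem last_eq {r : ℕ → ℕ} (hr : Word r) {u w : ℕ} (hu : 1 ≤ u) (h1 : r (u - 1) ≤ w)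
    (h2 : w < r u) : 4 ≤ w ∧ last r w = u := by
  have h4 : 4 ≤ w := by
    rw [← hr.zero]
    exact le_trans (hr.mono (Nat.zero_le _)) h1
  refine ⟨h4, ?_⟩
  obtain ⟨a1, _, a3, a4⟩ := last_spec hr h4
  rcases Nat.lt_trichotomy (last r w) u with h | h | h
  · have : r (last r w) ≤ r (u - 1) := hr.mono (by omega)
    omega
  · exact h
  · have : r u ≤ r (last r w - 1) := hr.mono (by omega)
    omega

section
variable {κ : Type} {r : ℕ → ℕ} {lab : ℕ → Option κ} {s t : ℕ → ℕ}

theorem Blocks.strict (hB : Blocks r lab s t) : StrictMono s :=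
  strictMono_nat_of_lt_succ fun j => lt_of_le_of_lt (hB.st j) (hB.ts j)

theorem Blocks.ex (hB : Blocks r lab s t) (v : ℕ) : ∃ m, v < s m :=
  ⟨v + 1, lt_of_lt_of_le (Nat.lt_succ_self v) (hB.strict.le_apply)⟩

open Classical in
/-- the row of a vertex -/
noncomputable def row (s : ℕ → ℕ) (v : ℕ) : ℕ :=
  if h : ∃ m, v < s m then Nat.find h else 0

theorem row_spec (hB : Blocks r lab s t) (v : ℕ) :
    v < s (row s v) ∧ ∀ m, m < row s v → s m ≤ v := by
  classical
  have h := hB.ex v
  have e : row s v = Nat.find h := by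
    unfold row
    rw [dif_pos h]
  rw [e]
  refine ⟨Nat.find_spec h, fun m hm => ?_⟩
  exact Nat.le_of_not_lt (Nat.find_min h hm)

theorem row_eq (hB : Blocks r lab s t) {v m : ℕ} (h1 : v < s m) (h2 : ∀ k, k < m → s k ≤ v) :
    row s v = m := by
  obtain ⟨a1, a2⟩ := row_spec hB v
  rcases Nat.lt_trichotomy (row s v) m with h | h | h
  · have := h2 _ h
    omega
  · exact h
  · have := a2 _ h
    omega

theorem row_eq' (hB : Blocks r lab s t) {v m : ℕ} (h1 : v < s (m + 1)) (h2 : s m ≤ v) :
    row s v = m + 1 :=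
  row_eq hB h1 fun k hk => le_trans (hB.strict.monotone (by omega)) h2

/-- an unlabelled vertex lies behind the block which starts its row -/
theorem behind (hB : Blocks r lab s t) {v m : ℕ} (hl : lab v = none) (h : s m ≤ v) : t m < v := by
  by_contra h2
  exact hB.full m v h (by omega) hl

/-- arcs between unlabelled vertices -/
def Arc (r s t : ℕ → ℕ) (v w : ℕ) : Prop :=
  w = v + 1 ∨ (w = v + 2 ∧ ¬ ∃ j, s j = t j ∧ s j = v + 1) ∨ w = r v ∨ (4 ≤ v ∧ w = last r v) ∨
    ∃ j, s j = t j ∧ v = s j + 1 ∧ w + 1 = s j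

/-- the kinds of arcs -/
theorem arc_row (hr : Word r) (hB : Blocks r lab s t) {v w : ℕ} (hv : lab v = none)
    (hw : lab w = none) (h : Arc r s t v w) :
    (row s w = row s v ∧ v < w) ∨ (row s w = row s v + 1 ∧ w = r v) ∨
      (row s w + 1 = row s v ∧ ((r (w - 1) ≤ v ∧ v < r w) ∨ (v = w + 2))) := by
  obtain ⟨a1, a2⟩ := row_spec hB v
  set m := row s v with hm
  rcases h with h | ⟨h, h'⟩ | h | ⟨h4, h⟩ | ⟨j, hj, hvj, hwj⟩
  · left
    subst h
    refine ⟨row_eq hB ?_ (fun k hk => le_trans (a2 k hk) (by omega)), by omega⟩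
    by_contra h2
    have h3 : v + 1 = s m := by omega
    exact hB.full m (v + 1) h3.ge (by rw [h3]; exact hB.st m) hw
  · left
    subst h
    refine ⟨row_eq hB ?_ (fun k hk => le_trans (a2 k hk) (by omega)), by omega⟩
    by_contra h2
    have h3 : s m = v + 1 ∨ s m = v + 2 := by omega
    rcases h3 with h3 | h3
    · have h5 : t m ≠ s m := fun h6 => h' ⟨m, h6.symm, h3⟩
      have h6 := hB.st m
      exact hB.full m (v + 2) (by omega) (by omega) hw
    · exact hB.full m (v + 2) h3.le (by rw [← h3]; exact hB.st m) hw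
  · right
    left
    refine ⟨?_, h⟩
    apply row_eq' hB
    · have h2 : r v ≤ r (s m - 1) := hr.mono (by omega)
      have h3 := hB.dn m
      by_contra h4
      exact hB.full (m + 1) w (by omega) (by omega) hw
    · rcases Nat.eq_zero_or_pos m with h0 | h0
      · rw [h0, h]
        have h2 : r 0 ≤ r v := hr.mono (Nat.zero_le _)
        have h3 := hB.s0'
        rw [hr.zero] at h2
        omega
      · obtain ⟨k, hk⟩ : ∃ k, m = k + 1 := ⟨m - 1, by omega⟩
        have h2 : t k < v := behind hB hv (a2 k (by omega))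
        have h3 := hB.up k
        have h5 : r (t k) ≤ r v := hr.mono h2.le
        rw [hk, h]
        omega
  · right
    right
    obtain ⟨b1, b2, b3, b4⟩ := last_spec hr h4
    rw [← h] at b1 b2 b3 b4
    have h0 : 0 < m := by
      rcases Nat.eq_zero_or_pos m with h0 | h0
      · rw [h0] at a1
        have := hB.s0'
        omega
      · exact h0
    obtain ⟨k, hk⟩ : ∃ k, m = k + 1 := ⟨m - 1, by omega⟩
    have h2 : t k < v := behind hB hv (a2 k (by omega))
    refine ⟨?_, Or.inl ⟨b3, b4⟩⟩
    rw [hk]
    congr 1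
    apply row_eq hB
    · by_contra h5
      have h6 : t k < w := behind hB hw (by omega)
      have h7 : r (t k) ≤ r (w - 1) := hr.mono (by omega)
      have h8 := hB.up k
      rw [hk] at a1
      omega
    · intro i hi
      by_contra h5
      have h6 : r w ≤ r (s i - 1) := hr.mono (by omega)
      have h7 := hB.dn i
      have h8 : t (i + 1) ≤ t k := by
        rcases Nat.eq_or_lt_of_le (Nat.succ_le_of_lt hi) with h9 | h9
        · rw [← h9]
        · have h10 := hB.ts (i + 1)
          have h11 : s (i + 1 + 1) ≤ s k := hB.strict.monotone (by omega)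
          have h12 := hB.st k
          omega
      omega
  · right
    right
    have h1 : row s v = j + 1 := by
      apply row_eq' hB _ (by omega)
      by_contra h2
      have h3 := hB.strict (Nat.lt_succ_self j)
      have h5 := hB.st (j + 1)
      exact hB.full (j + 1) v (by omega) (by
        have : s (j + 1) = v := by
          have h6 : s j < s (j + 1) := h3
          omega
        omega) hv
    have h2 : row s w = j := by
      apply row_eq hB (by omega)
      intro k hk
      have h3 : s k < s j := hB.strict hk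
      omega
    refine ⟨?_, Or.inr (by omega)⟩
    rw [hm, h1, h2]

/-- the excursion lemma -/
theorem excursion (hr : Word r) (hB : Blocks r lab s t) :
    ∀ n : ℕ, ∀ f : ℕ → ℕ, ∀ m : ℕ, 0 < n → (∀ i ≤ n, 1 ≤ f i ∧ lab (f i) = none) →
      (∀ i < n, Arc r s t (f i) (f (i + 1))) → (∀ i ≤ n, m ≤ row s (f i)) →
      row s (f 0) = m → row s (f n) = m → f 0 < f n := by
  intro n
  induction n using Nat.strong_induction_on with
  | _ n ih =>
    intro f m hn hf hA hm h0 hn'
    have hstep := arc_row hr hB (hf 0 (Nat.zero_le n)).2 (hf (0 + 1) hn).2 (hA 0 hn)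
    rw [Nat.zero_add] at hstep
    rcases hstep with ⟨h1, h2⟩ | ⟨h1, h2⟩ | ⟨h1, _⟩
    · rcases Nat.eq_or_lt_of_le (Nat.succ_le_of_lt hn) with h3 | h3
      · rw [← h3]
        exact h2
      · have h4 := ih (n - 1) (by omega) (fun i => f (i + 1)) m (by omega)
          (fun i hi => hf (i + 1) (by omega)) (fun i hi => hA (i + 1) (by omega))
          (fun i hi => hm (i + 1) (by omega)) (by
            show row s (f (0 + 1)) = m
            rw [Nat.zero_add, h1, h0]) (by
            show row s (f (n - 1 + 1)) = m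
            rw [Nat.sub_add_cancel hn]
            exact hn')
        have h5 : f (0 + 1) < f (n - 1 + 1) := h4
        rw [Nat.sub_add_cancel hn, Nat.zero_add] at h5
        omega
    · -- up: first return to row `m`
      classical
      have hex : ∃ k, 1 ≤ k ∧ row s (f k) = m := ⟨n, hn, hn'⟩
      obtain ⟨hk1, hk2⟩ := Nat.find_spec hex
      have hkmin := fun i (hi : i < Nat.find hex) => Nat.find_min hex hi
      have hkn : Nat.find hex ≤ n := Nat.find_min' hex ⟨hn, hn'⟩
      generalize Nat.find hex = k at hk1 hk2 hkmin hkn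
      have hk3 : 2 ≤ k := by
        by_contra h
        have h3 : k = 1 := by omega
        rw [h3, h1, h0] at hk2
        omega
      have hbig : ∀ i, 1 ≤ i → i < k → m + 1 ≤ row s (f i) := by
        intro i hi1 hi2
        have h3 := hm i (by omega)
        have h4 : row s (f i) ≠ m := fun h => hkmin i hi2 ⟨hi1, h⟩
        omega
      have hlastarc := arc_row hr hB (hf (k - 1) (by omega)).2 (hf (k - 1 + 1) (by omega)).2
        (hA (k - 1) (by omega))
      rw [Nat.sub_add_cancel hk1] at hlastarc
      have hp := hbig (k - 1) (by omega) (by omega)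
      -- the last vertex before the return is at least `r a`
      have hge : row s (f (k - 1)) = m + 1 → f 1 ≤ f (k - 1) := by
        intro hrow
        rcases Nat.eq_or_lt_of_le hk3 with h3 | h3
        · rw [← h3]
        · have h4 := ih (k - 2) (by omega) (fun i => f (i + 1)) (m + 1) (by omega)
            (fun i hi => hf (i + 1) (by omega)) (fun i hi => hA (i + 1) (by omega))
            (fun i hi => hbig (i + 1) (by omega) (by omega)) (by
              show row s (f (0 + 1)) = m + 1
              rw [Nat.zero_add, h1, h0]) (by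
              show row s (f (k - 2 + 1)) = m + 1
              have : k - 2 + 1 = k - 1 := by omega
              rw [this]
              exact hrow)
          have h5 : f (0 + 1) < f (k - 2 + 1) := h4
          have h6 : k - 2 + 1 = k - 1 := by omega
          rw [h6, Nat.zero_add] at h5
          omega
      have hay : f 0 < f k := by
        rcases hlastarc with ⟨h3, _⟩ | ⟨h3, _⟩ | ⟨h3, h4⟩
        · omega
        · omega
        · have h5 := hge (by omega)
          rw [h2] at h5
          rcases h4 with ⟨_, h6⟩ | h6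
          · by_contra h7
            have h8 : r (f k) ≤ r (f 0) := hr.mono (by omega)
            omega
          · have h7 := hr.win (f 0) (hf 0 (Nat.zero_le n)).1
            omega
      rcases Nat.eq_or_lt_of_le hkn with h3 | h3
      · rw [← h3]
        exact hay
      · have h4 := ih (n - k) (by omega) (fun i => f (i + k)) m (by omega)
          (fun i hi => hf (i + k) (by omega)) (fun i hi => by
            have h5 := hA (i + k) (by omega)
            have h6 : i + k + 1 = i + 1 + k := by omega
            rw [h6] at h5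
            exact h5)
          (fun i hi => hm (i + k) (by omega)) (by
            show row s (f (0 + k)) = m
            rw [Nat.zero_add]
            exact hk2) (by
            show row s (f (n - k + k)) = m
            rw [Nat.sub_add_cancel hkn]
            exact hn')
        have h5 : f (0 + k) < f (n - k + k) := h4
        rw [Nat.sub_add_cancel hkn, Nat.zero_add] at h5
        omega
    · -- down is impossible
      have h3 := hm 1 (by omega)
      omega

/-- the unlabelled vertices up to `N` -/
def Un (lab : ℕ → Option κ) (N v : ℕ) : Prop := 1 ≤ v ∧ v ≤ N ∧ lab v = none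

theorem no_infinite (hr : Word r) (hB : Blocks r lab s t) {N : ℕ} {f : ℕ → ℕ}
    (hf : ∀ i, Un lab N (f i)) (hA : ∀ i, Arc r s t (f i) (f (i + 1))) : False := by
  classical
  -- rows are bounded
  have hbd : ∀ i, row s (f i) ≤ N + 1 := by
    intro i
    by_contra h
    have h1 := (row_spec hB (f i)).2 (N + 1) (by omega)
    have h2 : N + 1 ≤ s (N + 1) := hB.strict.le_apply
    have h3 := (hf i).2.1
    omega
  have hex : ∃ m, ∀ k, ∃ i, k ≤ i ∧ row s (f i) ≤ m := ⟨N + 1, fun k => ⟨k, le_rfl, hbd k⟩⟩
  have hm := Nat.find_spec hex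
  have hmin := fun m' (h : m' < Nat.find hex) => Nat.find_min hex h
  generalize Nat.find hex = m at hm hmin
  obtain ⟨k0, hk0⟩ : ∃ k0, ∀ i, k0 ≤ i → m ≤ row s (f i) := by
    rcases Nat.eq_zero_or_pos m with h0 | h0
    · exact ⟨0, fun i _ => by omega⟩
    · have h1 := hmin (m - 1) (by omega)
      push Not at h1
      obtain ⟨k0, hk0⟩ := h1
      exact ⟨k0, fun i hi => by
        have := hk0 i hi
        omega⟩
  have hinf : ∀ n, ∃ i, k0 ≤ i ∧ row s (f i) = m ∧ n ≤ f i := by
    intro n
    induction n with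
    | zero =>
      obtain ⟨i, hi1, hi2⟩ := hm k0
      exact ⟨i, hi1, le_antisymm hi2 (hk0 i hi1), Nat.zero_le _⟩
    | succ n ihn =>
      obtain ⟨i, hi1, hi2, hi3⟩ := ihn
      obtain ⟨j, hj1, hj2⟩ := hm (i + 1)
      have hj3 : row s (f j) = m := le_antisymm hj2 (hk0 j (by omega))
      have h4 := excursion hr hB (j - i) (fun l => f (l + i)) m (by omega)
        (fun l _ => ⟨(hf (l + i)).1, (hf (l + i)).2.2⟩) (fun l _ => by
          have h5 := hA (l + i)
          have h6 : l + i + 1 = l + 1 + i := by omega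
          rw [h6] at h5
          exact h5) (fun l _ => hk0 (l + i) (by omega)) (by
          show row s (f (0 + i)) = m
          rw [Nat.zero_add]
          exact hi2) (by
          show row s (f (j - i + i)) = m
          rw [Nat.sub_add_cancel (by omega)]
          exact hj3)
      have h5 : f (0 + i) < f (j - i + i) := h4
      rw [Nat.sub_add_cancel (by omega), Nat.zero_add] at h5
      exact ⟨j, by omega, hj3, by omega⟩
  obtain ⟨i, _, _, hi⟩ := hinf (N + 1)
  have := (hf i).2.1
  omega

/-- the relation for the recursion -/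
def Rel (r s t : ℕ → ℕ) (lab : ℕ → Option κ) (N w v : ℕ) : Prop :=
  Un lab N v ∧ Un lab N w ∧ Arc r s t v w

theorem rel_wf (hr : Word r) (hB : Blocks r lab s t) (N : ℕ) : WellFounded (Rel r s t lab N) := by
  rw [wellFounded_iff_isEmpty_descending_chain]
  refine ⟨fun ⟨f, hf⟩ => ?_⟩
  exact no_infinite hr hB (fun i => (hf i).1) (fun i => (hf i).2.2)

end

/-- greedy colouring along a well-founded relation -/
theorem greedy {α : Type} {R : α → α → Prop} (hR : WellFounded R) (C : α → Finset (Fin 6))
    (O : α → Finset α) (hO : ∀ v w, R w v → w ∈ O v) (hc : ∀ v, (C v).card + (O v).card ≤ 5) :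
    ∃ c : α → Fin 6, ∀ v, c v ∉ C v ∧ ∀ w, R w v → c v ≠ c w := by
  classical
  have hstep : ∀ v (g : ∀ w, R w v → Fin 6), ∃ x : Fin 6, x ∉ C v ∧ ∀ w (h : R w v), x ≠ g w h := by
    intro v g
    set S : Finset (Fin 6) := C v ∪ (O v).image (fun w => if h : R w v then g w h else 0) with hS
    have h1 : S.card ≤ 5 := by
      refine le_trans (Finset.card_union_le _ _) (le_trans ?_ (hc v))
      exact Nat.add_le_add_left Finset.card_image_le _
    have h2 : ∃ x, x ∉ S := by
      by_contra h
      push Not at h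
      have h3 : (Finset.univ : Finset (Fin 6)) ⊆ S := fun x _ => h x
      have h4 := Finset.card_le_card h3
      rw [Finset.card_univ, Fintype.card_fin] at h4
      omega
    obtain ⟨x, hx⟩ := h2
    refine ⟨x, fun h => hx (Finset.mem_union_left _ h), fun w h he => hx ?_⟩
    apply Finset.mem_union_right
    rw [Finset.mem_image]
    exact ⟨w, hO v w h, by rw [dif_pos h, he]⟩
  choose F hF1 hF2 using hstep
  refine ⟨hR.fix F, fun v => ?_⟩
  rw [hR.fix_eq]
  exact ⟨hF1 v _, fun w h => hF2 v _ w h⟩

/-- number of labelled out-neighbours of `v` in the standard orientation -/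
def outs {κ : Type} (r : ℕ → ℕ) (lab : ℕ → Option κ) (v : ℕ) : ℕ :=
  (lab (v + 1)).isSome.toNat + (lab (v + 2)).isSome.toNat + (lab (r v)).isSome.toNat +
    (if 4 ≤ v then (lab (last r v)).isSome.toNat else 0)

/-- `v` is the vertex behind a block of size one -/
def Thin (s t : ℕ → ℕ) (v : ℕ) : Prop := ∃ j, s j = t j ∧ v = t j + 1

open Classical in
/-- greedy completion of a seam with labels in `Fin 6` -/
theorem complete {r : ℕ → ℕ} {lab : ℕ → Option (Fin 6)} {s t : ℕ → ℕ} {N : ℕ} (hr : Word r)
    (hB : Blocks r lab s t)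
    (hlab : ∀ u w, 1 ≤ u → w ≤ N → Ed r u w → lab u ≠ none → lab u ≠ lab w)
    (hC : ∀ v, 1 ≤ v → v ≤ N → lab v = none → ∃ C : Finset (Fin 6),
      (∀ w, 1 ≤ w → w ≤ N → (Ed r v w ∨ Ed r w v) → ∀ c, lab w = some c → c ∈ C) ∧
      C.card + (if Thin s t v then 1 else 0) ≤ 1 + outs r lab v) :
    ∃ c : ℕ → Fin 6, ∀ u w, 1 ≤ u → w ≤ N → Ed r u w → c u ≠ c w := by
  have hC' : ∀ v, ∃ C : Finset (Fin 6), Un lab N v →
      (∀ w, 1 ≤ w → w ≤ N → (Ed r v w ∨ Ed r w v) → ∀ c, lab w = some c → c ∈ C) ∧
      C.card + (if Thin s t v then 1 else 0) ≤ 1 + outs r lab v := by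
    intro v
    by_cases h : Un lab N v
    · obtain ⟨C, hC1, hC2⟩ := hC v h.1 h.2.1 h.2.2
      exact ⟨C, fun _ => ⟨hC1, hC2⟩⟩
    · exact ⟨∅, fun h' => absurd h' h⟩
  choose C hC1 using hC'
  let sg : ℕ → Finset ℕ := fun w => if lab w = none then {w} else ∅
  have hsg1 : ∀ w, lab w = none → w ∈ sg w := by
    intro w hw
    show w ∈ (if lab w = none then ({w} : Finset ℕ) else ∅)
    rw [if_pos hw]
    exact Finset.mem_singleton_self w
  have hsg2 : ∀ w, (sg w).card + (lab w).isSome.toNat ≤ 1 := by
    intro w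
    show (if lab w = none then ({w} : Finset ℕ) else ∅).card + (lab w).isSome.toNat ≤ 1
    rcases h : lab w with _ | c
    · simp
    · simp
  let O : ℕ → Finset ℕ := fun v => if Un lab N v then
      sg (v + 1) ∪ (sg (v + 2) ∪ (sg (r v) ∪ ((if 4 ≤ v then sg (last r v) else ∅) ∪
        (if Thin s t v then {v - 2} else ∅)))) else ∅
  let D : ℕ → Finset (Fin 6) := fun v => if Un lab N v then C v else ∅
  obtain ⟨c, hc⟩ := greedy (rel_wf hr hB N) D O (by
    rintro v w ⟨hv, hw, ha⟩
    show w ∈ (if Un lab N v then _ else _)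
    rw [if_pos hv]
    simp only [Finset.mem_union]
    rcases ha with h | ⟨h, _⟩ | h | ⟨h4, h⟩ | ⟨j, hj, hvj, hwj⟩
    · left
      rw [← h]
      exact hsg1 w hw.2.2
    · right; left
      rw [← h]
      exact hsg1 w hw.2.2
    · right; right; left
      rw [← h]
      exact hsg1 w hw.2.2
    · right; right; right; left
      rw [if_pos h4, ← h]
      exact hsg1 w hw.2.2
    · right; right; right; right
      rw [if_pos ⟨j, hj, by omega⟩, Finset.mem_singleton]
      omega) (by
    intro v
    by_cases hv : Un lab N v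
    · show (if Un lab N v then C v else ∅).card + (if Un lab N v then _ else ∅ : Finset ℕ).card ≤ 5
      rw [if_pos hv, if_pos hv]
      have h1 := (hC1 v hv).2
      have h2 := hsg2 (v + 1)
      have h3 := hsg2 (v + 2)
      have h4 := hsg2 (r v)
      have h5 : (if 4 ≤ v then sg (last r v) else ∅ : Finset ℕ).card +
          (if 4 ≤ v then (lab (last r v)).isSome.toNat else 0) ≤ 1 := by
        split_ifs
        · exact hsg2 _
        · simp
      have h6 : (if Thin s t v then {v - 2} else ∅ : Finset ℕ).card ≤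
          (if Thin s t v then 1 else 0) := by
        split_ifs <;> simp
      unfold outs at h1
      have k1 := Finset.card_union_le (sg (v + 1)) (sg (v + 2) ∪ (sg (r v) ∪
        ((if 4 ≤ v then sg (last r v) else ∅) ∪ (if Thin s t v then {v - 2} else ∅))))
      have k2 := Finset.card_union_le (sg (v + 2)) (sg (r v) ∪
        ((if 4 ≤ v then sg (last r v) else ∅) ∪ (if Thin s t v then {v - 2} else ∅)))
      have k3 := Finset.card_union_le (sg (r v))
        ((if 4 ≤ v then sg (last r v) else ∅) ∪ (if Thin s t v then {v - 2} else ∅))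
      have k4 := Finset.card_union_le (if 4 ≤ v then sg (last r v) else ∅)
        (if Thin s t v then {v - 2} else ∅)
      omega
    · show (if Un lab N v then C v else ∅).card + (if Un lab N v then _ else ∅ : Finset ℕ).card ≤ 5
      rw [if_neg hv, if_neg hv]
      simp)
  have hcD : ∀ v, Un lab N v → c v ∉ C v := by
    intro v hv h
    have h1 := (hc v).1
    have h2 : D v = C v := if_pos hv
    rw [h2] at h1
    exact h1 h
  refine ⟨fun v => (lab v).getD (c v), fun u w hu hwN he => ?_⟩
  have huw := he.1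
  show (lab u).getD (c u) ≠ (lab w).getD (c w)
  rcases hlu : lab u with _ | a
  · have hUu : Un lab N u := ⟨hu, by omega, hlu⟩
    rcases hlw : lab w with _ | b
    · have hUw : Un lab N w := ⟨by omega, hwN, hlw⟩
      show c u ≠ c w
      have key : Arc r s t u w ∨ Arc r s t w u := by
        rcases he.2 with h | ⟨h1, h2⟩
        · have h3 : w = u + 1 ∨ w = u + 2 := by omega
          rcases h3 with h3 | h3
          · exact Or.inl (Or.inl h3)
          · by_cases h4 : ∃ j, s j = t j ∧ s j = u + 1
            · obtain ⟨j, hj1, hj2⟩ := h4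
              exact Or.inr (Or.inr (Or.inr (Or.inr (Or.inr ⟨j, hj1, by omega, by omega⟩))))
            · exact Or.inl (Or.inr (Or.inl ⟨h3, h4⟩))
        · rcases Nat.eq_or_lt_of_le h2 with h3 | h3
          · exact Or.inl (Or.inr (Or.inr (Or.inl h3)))
          · obtain ⟨h4, h5⟩ := last_eq hr hu h1 h3
            exact Or.inr (Or.inr (Or.inr (Or.inr (Or.inl ⟨h4, h5.symm⟩))))
      rcases key with h | h
      · exact (hc u).2 w ⟨hUu, hUw, h⟩
      · exact fun h' => (hc w).2 u ⟨hUw, hUu, h⟩ h'.symm
    · show c u ≠ b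
      intro h
      exact hcD u hUu (h ▸ (hC1 u hUu).1 w (by omega) hwN (Or.inl he) b hlw)
  · rcases hlw : lab w with _ | b
    · have hUw : Un lab N w := ⟨by omega, hwN, hlw⟩
      show a ≠ c w
      intro h
      exact hcD w hUw (h ▸ (hC1 w hUw).1 u hu (by omega) (Or.inr he) a hlu)
    · show a ≠ b
      have h1 := hlab u w hu hwN he (by rw [hlu]; exact Option.some_ne_none a)
      rw [hlu, hlw] at h1
      exact fun h => h1 (by rw [h])

open Classical in
/-- greedy completion of a seam with labels in `Fin 3` -/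
theorem complete3 {r : ℕ → ℕ} {lab : ℕ → Option (Fin 3)} {s t : ℕ → ℕ} {N : ℕ} (hr : Word r)
    (hB : Blocks r lab s t)
    (hlab : ∀ u w, 1 ≤ u → w ≤ N → Ed r u w → lab u ≠ none → lab u ≠ lab w)
    (hC : ∀ v, 1 ≤ v → v ≤ N → lab v = none → ∃ C : Finset (Fin 3),
      (∀ w, 1 ≤ w → w ≤ N → (Ed r v w ∨ Ed r w v) → ∀ c, lab w = some c → c ∈ C) ∧
      C.card + (if Thin s t v then 1 else 0) ≤ 1 + outs r lab v) :
    ∃ c : ℕ → Fin 6, ∀ u w, 1 ≤ u → w ≤ N → Ed r u w → c u ≠ c w := by
  let e : Fin 3 ↪ Fin 6 := Fin.castLEEmb (by norm_num)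
  have hnone : ∀ v, (lab v).map e = none ↔ lab v = none := fun v => Option.map_eq_none_iff
  have hsome : ∀ v, ((lab v).map e).isSome = (lab v).isSome := fun v => Option.isSome_map
  apply complete (lab := fun v => (lab v).map e) (s := s) (t := t) (N := N) hr
  · exact ⟨hB.s0, hB.s0', hB.st, hB.ts, hB.up, hB.dn, fun j v h1 h2 h3 =>
      hB.full j v h1 h2 ((hnone v).1 h3)⟩
  · intro u w hu hw he h1 h2
    have h3 : lab u ≠ none := fun h => h1 ((hnone u).2 h)
    exact hlab u w hu hw he h3 (Option.map_injective e.injective h2)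
  · intro v hv hvN h1
    obtain ⟨C, hC1, hC2⟩ := hC v hv hvN ((hnone v).1 h1)
    refine ⟨C.map e, fun w hw hwN hE c hc => ?_, ?_⟩
    · obtain ⟨b, hb, hbc⟩ := Option.map_eq_some_iff.1 hc
      rw [Finset.mem_map]
      exact ⟨b, hC1 w hw hwN hE b hb, hbc⟩
    · rw [Finset.card_map]
      have h2 : outs r (fun v => (lab v).map e) v = outs r lab v := by
        unfold outs
        simp only [hsome]
      rw [h2]
      exact hC2

end Pool.Agent.helper29.TQ6
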